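import Mathlib.Algebra.Order.Archimedean.Real.Basic
import Mathlib.Tactic

/-!
# The SYZ conjecture for primitive symplectic varieties with fixed second cohomology

Let `X` be primitive symplectic varieties of dimension `2 n` and `L` nef line bundles on `X` with
`c_1(L) ≠ 0` and `q_X(L) = 0`. The *type* of `(X, L)` is the isomorphism class of the rational vector space
`H²(X, ℚ)` with its Hodge structure, the Beauville-Bogomolov-Fujiki form up to a positive factor, and the
class `c_1(L)`. The symmetric power `X^{(k)} = X^k / S_k` is again a primitive symplectic variety,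
`H²(X^{(k)}, ℚ) = H²(X, ℚ)` since `H^1(X, ℚ) = 0`, by the Fujiki relation the forms are proportional, and
`L ⊠ ⋯ ⊠ L` descends to a nef line bundle `L^{(k)}` (after a power) of the same type with Iitaka dimension
`k κ(L)`. As `ν(L) = n`, and as `L` induces a Lagrangian fibration if and only if `κ(L) = n`, we find
that for every set of types Question Q1 is equivalent to the inequality `κ(L) ≥ (1 - o(1)) n`, along some
highly divisible `n`.
-/

set_option autoImplicit false

namespace Pool.Agent.Results.MP_63735c_ag.FixedHodgeType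

universe u v

/-- Pairs `(X, L)`: `X` is a primitive symplectic variety and `L` a nef line bundle on `X` with
`c_1(L) ≠ 0` and `q_X(L) = 0`. -/
structure NefPairs where
  /-- the pairs -/
  Pair : Type u
  /-- the types -/
  HodgeType : Type v
  /-- the type of `(X, L)`: the isomorphism class of `H²(X, ℚ)` with its Hodge structure, the form `q_X` up
  to a positive factor and the class `c_1(L)` -/
  type : Pair → HodgeType
  /-- the number `n`, where `dim X = 2 n` -/
  half : Pair → ℕ
  /-- the Iitaka dimension of `L`, in `ℕ ∪ {-∞}` -/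
  kappa : Pair → WithBot ℕ
  /-- `L` induces a holomorphic Lagrangian fibration -/
  Induces : Pair → Prop

/-- The known properties. -/
structure IsKnown (T : NefPairs.{u, v}) : Prop where
  /-- `n ≥ 1` -/
  half_pos : ∀ P, 1 ≤ T.half P
  /-- `κ ≤ n`, since the numerical dimension of `L` is `n` -/
  kappa_le : ∀ P, T.kappa P ≤ T.half P
  /-- `L` induces a Lagrangian fibration if and only if `κ = n` (Kawamata, Nakayama, Fujino: nef and abundant
  implies semiample; Matsushita, Schwald: fibrations are Lagrangian) -/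
  induces_iff : ∀ P, T.Induces P ↔ T.kappa P = T.half P
  /-- symmetric powers -/
  symmetric : ∀ (P : T.Pair) (k : ℕ), 1 ≤ k → ∃ R : T.Pair,
    T.half R = k * T.half P ∧ T.type R = T.type P ∧ T.kappa R = k • T.kappa P

variable {T : NefPairs.{u, v}}

/-- Question Q1 for the pairs with types in `S`. -/
def ConjectureFor (T : NefPairs.{u, v}) (S : Set T.HodgeType) : Prop :=
  ∀ P : T.Pair, T.type P ∈ S → T.Induces P

/-- For every `c > 0` every `d ≥ 1` has a multiple `n ≥ 1` such that `κ(L) ≥ (1 - c) n` for all pairs with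
types in `S` and `dim X = 2 n`. -/
def WeakConjectureFor (T : NefPairs.{u, v}) (S : Set T.HodgeType) : Prop :=
  ∀ c : ℝ, 0 < c → ∀ d : ℕ, 1 ≤ d → ∃ n : ℕ, 1 ≤ n ∧ d ∣ n ∧
    ∀ P : T.Pair, T.type P ∈ S → T.half P = n → ∃ e : ℕ, T.kappa P = e ∧ (1 - c) * n ≤ e

/-- `κ = -∞` or `κ ≤ n - t`. -/
def Gap (P : T.Pair) (t : ℕ) : Prop := ∀ e : ℕ, T.kappa P = e → e + t ≤ T.half P

theorem nsmul_eq_coe (k : ℕ) (hk : 1 ≤ k) (x : WithBot ℕ) (d : ℕ) (h : k • x = d) :
    ∃ e : ℕ, x = e ∧ d = k * e := by
  cases x with
  | bot =>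
    exfalso
    obtain ⟨m, rfl⟩ : ∃ m, k = m + 1 := ⟨k - 1, by omega⟩
    rw [succ_nsmul, WithBot.add_bot] at h
    exact absurd h (by simp)
  | coe x =>
    refine ⟨x, rfl, ?_⟩
    rw [← WithBot.coe_nsmul] at h
    have h1 : WithBot.some (k • x) = WithBot.some d := h
    have h2 := WithBot.coe_injective h1
    rw [← h2, smul_eq_mul]

theorem gap_one (hT : IsKnown T) {P : T.Pair} (h : ¬ T.Induces P) : Gap P 1 := by
  intro d hd
  rw [hT.induces_iff, hd] at h
  have h1 := hT.kappa_le P
  rw [hd] at h1
  have h2 : d ≤ T.half P := WithBot.coe_le_coe.1 h1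
  have h3 : d ≠ T.half P := fun e => h (by rw [e])
  omega

theorem powers (hT : IsKnown T) (P : T.Pair) (hP : ¬ T.Induces P) (k : ℕ) (hk : 1 ≤ k) :
    ∃ R : T.Pair, T.type R = T.type P ∧ T.half R = k * T.half P ∧ Gap R k := by
  obtain ⟨R, e1, e2, e3⟩ := hT.symmetric P k hk
  refine ⟨R, e2, e1, fun d hd => ?_⟩
  rw [e3] at hd
  obtain ⟨e, h3, rfl⟩ := nsmul_eq_coe k hk _ _ hd
  have h4 := gap_one hT hP e h3
  rw [e1]
  calc k * e + k = k * (e + 1) := by ring
    _ ≤ k * T.half P := Nat.mul_le_mul_left _ h4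

/-- **The SYZ conjecture for fixed second cohomology.** For all data with the known properties:

* if `L` does not induce a Lagrangian fibration of `X`, then for every `k ≥ 1` there is a pair `(X', L')` of
  the same type with `dim X' = k dim X` and `κ(L') = -∞` or `κ(L') ≤ dim X' / 2 - k`;
* for every set `S` of types, all `L` with types in `S` induce Lagrangian fibrations if and only if for every
  `c > 0` every `d ≥ 1` has a multiple `n ≥ 1` such that `κ(L) ≥ (1 - c) n` for all `(X, L)` with types in `S`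
  and `dim X = 2 n`. -/
theorem result (T : NefPairs.{u, v}) (hT : IsKnown T) :
    (∀ P : T.Pair, ¬ T.Induces P → ∀ k : ℕ, 1 ≤ k → ∃ R : T.Pair, T.type R = T.type P ∧
      T.half R = k * T.half P ∧ Gap R k) ∧
    ∀ S : Set T.HodgeType, ConjectureFor T S ↔ WeakConjectureFor T S := by
  refine ⟨powers hT, fun S => ⟨fun h c hc d hd => ⟨d, hd, dvd_rfl, fun P hP hn => ?_⟩,
    fun h P hS => ?_⟩⟩
  · refine ⟨T.half P, (hT.induces_iff P).1 (h P hP), ?_⟩
    rw [hn]
    have : 0 ≤ c * (d : ℝ) := by positivity
    linarith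
  · by_contra hP
    have hd := hT.half_pos P
    have hd0 : (0 : ℝ) < T.half P := by exact_mod_cast hd
    obtain ⟨n, hn, ⟨k, rfl⟩, hall⟩ := h (1 / (2 * T.half P)) (by positivity) (T.half P) hd
    have hk : 1 ≤ k := by
      rcases Nat.eq_zero_or_pos k with rfl | hk
      · omega
      · exact hk
    obtain ⟨R, h1, h2, h3⟩ := powers hT P hP k hk
    obtain ⟨e, h4, h5⟩ := hall R (by rw [h1]; exact hS) (by rw [h2, mul_comm])
    have h6 := h3 e h4
    rw [h2] at h6
    have h7 : (e : ℝ) + k ≤ k * T.half P := by exact_mod_cast h6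
    have hk0 : (1 : ℝ) ≤ k := by exact_mod_cast hk
    have h8 : (1 - 1 / (2 * (T.half P : ℝ))) * ((T.half P * k : ℕ) : ℝ) = k * T.half P - k / 2 := by
      push_cast
      field_simp
    rw [h8] at h5
    linarith

end Pool.Agent.Results.MP_63735c_ag.FixedHodgeType
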