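import Pool.Agent.Q82.SZ.Number

set_option autoImplicit false

/-!
# The Lagrangian fibrations of a primitive symplectic torus quotient

Let `X = V / Γ` be a primitive symplectic variety that is the quotient of a complex torus by a finite
group.  Each line bundle `L` on `X` with `q_X(L) = 0` (its Chern form is degenerate) and
`c_1(L) ≠ 0`, nef or not, defines a holomorphic Lagrangian fibration.  Two different Lagrangian
fibrations are transversal.  If `X` is not projective, there is at most one.  If `X` is projective,
then either there is none, or the Picard number is two and there are exactly two, or the Picard number is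
at least three and there are infinitely many.

The proof: relative to an ample class `A` an invariant hermitian form has one or two eigenvalues, the
eigenspaces being Lagrangian.  So an isotropic nef class `H` is `0` on a Lagrangian subspace `K`
and `b A` on another one, `K'`.  There are lattice vectors in `K'`, hence `b = p / q` is rational, and
`p A - q H` is an isotropic nef class with kernel `K'`.  Three fibrations with classes `H₁`, `H₂`, `H₃`
give infinitely many: the second ones of the pairs `A = H₁ + H₂ + t H₃` and `H₁`.

`latt`, `IsPrimitiveSymplectic`, `LineBundle` are defined in `Pool.Agent.W594.SYZ.Defs2`; `IsChernForm`,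
`IsDegenerateForm`, `IsPositiveForm`, `IsLagrangianFibration` in `Pool.Agent.W594.SYZ.TQDefs`;
`IsProjective`, `IsFibreSpace` and `PicardLETwo` in `Pool.Agent.Q82.SZ.FibDefs`.
-/

namespace Pool.Agent.Results.MP_63735c_ag.NumberOfFibrations

open Pool.Agent.W594.SYZ2 Pool.Agent.Q82.SZ

/-- Let `X = V / Γ` be a primitive symplectic torus quotient.

* The kernel of the Chern form `H ≠ 0` of any line bundle `L` on `X` with `q_X(L) = 0` is the fibre
  space of a Lagrangian fibration.
* The fibre spaces of two different Lagrangian fibrations are complementary.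
* If `X` is not projective, it has at most one Lagrangian fibration.
* If `X` is projective, it has no Lagrangian fibration, or its Picard number is at most two and it has
  exactly two, or its Picard number is at least three and it has infinitely many. -/
theorem result {V : Type*} [NormedAddCommGroup V] [NormedSpace ℂ V] [FiniteDimensional ℂ V]
    (Γ : Subgroup (V ≃ᵃ[ℂ] V)) (hΓ : IsPrimitiveSymplectic Γ) :
    (∀ (L : LineBundle Γ) (H : V → V → ℂ), IsChernForm L H → IsDegenerateForm H →
      (∃ v w, H v w ≠ 0) → ∃ K, IsFibreSpace Γ K ∧ ∀ v, v ∈ K ↔ ∀ w, H v w = 0) ∧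
    (∀ K K', IsFibreSpace Γ K → IsFibreSpace Γ K' → K ≠ K' → IsCompl K K') ∧
    (¬ IsProjective Γ → ∀ K K', IsFibreSpace Γ K → IsFibreSpace Γ K' → K = K') ∧
    (IsProjective Γ → (∀ K, ¬ IsFibreSpace Γ K) ∨
      (PicardLETwo Γ ∧ ∃ K K' : Submodule ℂ V, K ≠ K' ∧ ∀ J, IsFibreSpace Γ J ↔ J = K ∨ J = K') ∨
      (¬ PicardLETwo Γ ∧ {K | IsFibreSpace Γ K}.Infinite)) := by
  refine ⟨fun L H hc hd h0 => fib_of_degenerate hΓ hc hd h0, fun K K' h h' hne => ?_,
    fun hP K K' h h' => ?_, number hΓ⟩
  · obtain ⟨H₁, h1⟩ := exists_null h
    obtain ⟨H₂, h2⟩ := exists_null h'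
    exact compl_of_ne hΓ h1 h2 hne
  · by_contra hne
    obtain ⟨H₁, h1⟩ := exists_null h
    obtain ⟨H₂, h2⟩ := exists_null h'
    exact hP (projective_of_two hΓ h1 h2 hne)

end Pool.Agent.Results.MP_63735c_ag.NumberOfFibrations
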